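import Pool.Agent.Helper63.XP.StA

set_option autoImplicit false

namespace Pool.Agent.Helper89.XP

open Pool.Agent.Helper63.XP Finset Filter

private lemma rp_mul {x : ℝ} (hx : 1 ≤ x) (a b : ℝ) : x ^ a * x ^ b = x ^ (a + b) :=
  (Real.rpow_add (by linarith) a b).symm

private lemma rp_pow {x : ℝ} (hx : 1 ≤ x) (a b : ℝ) : (x ^ a) ^ b = x ^ (a * b) :=
  (Real.rpow_mul (by linarith) a b).symm

/-- the conditions, for one value of `d = x` -/
private lemma core (p κ z c x μ η0 e0 η1 η est : ℝ) (d m r : ℕ) (hp1 : 1 < p) (hp2 : p < 2)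
    (hκ : 1 ≤ κ) (hz : 0 < z) (hc : 0 < c) (hx : 1 ≤ x) (hd : (d : ℝ) = x) (hm : (m : ℝ) = x ^ μ)
    (hμ : μ = p - 1 + η0) (he0 : e0 = (2 - p - 3 * η0) / 2) (hη1 : η1 = e0 / 4) (hη : η = η1 * (2 - p) / 4)
    (hest : est = 3 * (2 - p) / 4) (he0p : 0 < e0) (hr : 1 ≤ r)
    (c1 : 2 * (r : ℝ) * x ^ (-est) ≤ 1)
    (c2 : (r.factorial : ℝ) * (κ + 1) * 2 ^ r * x ^ (-(r * est - 1 - η)) < 1)
    (c3 : (κ + 3) ^ 2 * 2 ^ p * x ^ (-(p * e0 / 2)) ≤ 1)
    (t1 : κ * 2 ^ (2 - p) * x ^ (-((p - 1) * (2 - p) / p - η0 + e0 * (2 - p))) ≤ z ^ 2 / 60)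
    (t2 : κ ^ 2 * x ^ (-((2 - 2 / p) * η)) ≤ z ^ 2 / 60)
    (t3 : 2 * κ * x ^ (-(η * (2 - p) / p)) ≤ z ^ 2 / 60)
    (t4 : 4 * κ * x ^ (-(1 - μ - est - η * (1 + 2 / p))) ≤ z ^ 2 / 60)
    (t5 : 2 * κ * x ^ (-(η1 * (2 - p) / 2)) ≤ z ^ 2 / 60)
    (s1 : x ^ (-((2 - p) / 2 + (3 / 2 - (1 - 1 / p)) * η0)) ≤ c)
    (s2 : x ^ (-(2 - p - (1 - 1 / p) * η0)) ≤ c)
    (s3 : x ^ (-(η0 / p)) ≤ c)
    (s4 : x ^ (-(2 * η0)) ≤ c) :
    ∃ (J Q s0 : ℕ) (ε ζ τ ha hc' : ℝ), r ≤ J ∧ r.factorial * Q < (J - r) ^ r ∧ 0 < ε ∧ ε ≤ 1 ∧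
      0 < ζ ∧ ζ ≤ ε ∧ DecC p κ ζ ε z (2 * (d : ℕ)) ha hc' τ d m s0 J Q ∧
      dm p d m ≤ c * ε ∧ dm p d m ≤ c ∧
      ((d : ℝ) / (m : ℕ)) * dm p d m ≤ c ∧
      1 ≤ c * (ε ^ 2 * ((d : ℝ) / (m : ℕ))) := by
  have hx0 : 0 < x := by linarith
  have hp0 : 0 < p := by linarith
  have hη1p : 0 < η1 := by rw [hη1]; linarith
  have hηp : 0 < η := by
    rw [hη]
    have : 0 < 2 - p := by linarith
    positivity
  have hpos : ∀ a : ℝ, 0 < x ^ a := fun a => Real.rpow_pos_of_pos hx0 a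
  have hone : ∀ a : ℝ, 0 ≤ a → 1 ≤ x ^ a := fun a ha => Real.one_le_rpow hx ha
  -- parameters
  set ε : ℝ := x ^ (-e0) with hε
  set τ : ℝ := x ^ (-η1) with hτ
  set s0 : ℕ := ⌈(κ + 2) * x ^ (p * η1)⌉₊ with hs0
  set ha : ℝ := x ^ (-((1 - η) / p)) with hha
  set hc' : ℝ := x ^ (-((1 + η) / p)) with hhc
  set J : ℕ := ⌈x ^ est⌉₊ with hJ
  set Q : ℕ := ⌈κ * x ^ (1 + η)⌉₊ with hQ
  set sd : ℝ := Real.sqrt ((d : ℝ) * m) with hsd
  have hdm0 : 0 < (d : ℝ) * m := by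
    rw [hd, hm]
    exact mul_pos hx0 (hpos _)
  have hsd0 : 0 < sd := Real.sqrt_pos.2 hdm0
  set ζ : ℝ := min ε (z / (2 * sd)) with hζ
  have hεp : 0 < ε := hpos _
  have hε1 : ε ≤ 1 := Real.rpow_le_one_of_one_le_of_nonpos hx (by linarith)
  have hJle : (J : ℝ) ≤ 2 * x ^ est := by
    have h1 : (J : ℝ) < x ^ est + 1 := Nat.ceil_lt_add_one (hpos _).le
    have h2 : 1 ≤ x ^ est := hone _ (by rw [hest]; nlinarith)
    linarith
  have hJge : x ^ est ≤ (J : ℝ) := Nat.le_ceil _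
  have hQge : κ * x ^ (1 + η) ≤ (Q : ℝ) := Nat.le_ceil _
  have hQle : (Q : ℝ) ≤ (κ + 1) * x ^ (1 + η) := by
    have h1 : (Q : ℝ) < κ * x ^ (1 + η) + 1 := Nat.ceil_lt_add_one (by have := hpos (1 + η); positivity)
    have h2 : 1 ≤ x ^ (1 + η) := hone _ (by linarith)
    linarith
  have hs0ge : (κ + 2) * x ^ (p * η1) ≤ (s0 : ℝ) := Nat.le_ceil _
  have hs0le : (s0 : ℝ) ≤ (κ + 3) * x ^ (p * η1) := by
    have h1 : (s0 : ℝ) < (κ + 2) * x ^ (p * η1) + 1 :=
      Nat.ceil_lt_add_one (by have := hpos (p * η1); positivity)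
    have h2 : 1 ≤ x ^ (p * η1) := hone _ (by positivity)
    linarith
  have hrx : 2 * (r : ℝ) ≤ x ^ est := by
    have h1 := mul_le_mul_of_nonneg_right c1 (hpos est).le
    rw [mul_assoc, rp_mul hx, neg_add_cancel, Real.rpow_zero] at h1
    linarith
  have hrJ : r ≤ J := by
    have : (r : ℝ) ≤ J := by
      have : (0 : ℝ) ≤ r := Nat.cast_nonneg r
      linarith
    exact_mod_cast this
  have hdmv : dm p d m = x ^ (-(2 - p - (1 - 1 / p) * η0)) := by
    unfold dm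
    rw [hd, hm, rp_pow hx, rp_mul hx]
    congr 1
    rw [hμ]
    field_simp
    ring
  refine ⟨J, Q, s0, ε, ζ, τ, ha, hc', hrJ, ?_, hεp, hε1, ?_, min_le_left _ _, ?_, ?_, ?_, ?_, ?_⟩
  · -- core size
    have h1 : ((r.factorial * Q : ℕ) : ℝ) < (((J - r) ^ r : ℕ) : ℝ) := by
      push_cast [Nat.cast_sub hrJ]
      have h2 : x ^ est / 2 ≤ (J : ℝ) - r := by linarith
      have h3 : (x ^ est / 2) ^ r ≤ ((J : ℝ) - r) ^ r :=
        pow_le_pow_left₀ (by have := hpos est; positivity) h2 r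
      refine lt_of_lt_of_le ?_ h3
      have h4 : (x ^ est) ^ r = x ^ ((r : ℝ) * est - 1 - η) * x ^ (1 + η) := by
        rw [rp_mul hx, ← Real.rpow_natCast, rp_pow hx]
        congr 1
        ring
      rw [div_pow, h4]
      have h5 : (r.factorial : ℝ) * Q ≤ (r.factorial : ℝ) * ((κ + 1) * x ^ (1 + η)) :=
        mul_le_mul_of_nonneg_left hQle (by positivity)
      refine lt_of_le_of_lt h5 ?_
      rw [lt_div_iff₀ (by positivity)]
      have h6 : (r.factorial : ℝ) * (κ + 1) * 2 ^ r < x ^ ((r : ℝ) * est - 1 - η) := by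
        have h7 := mul_lt_mul_of_pos_right c2 (hpos ((r : ℝ) * est - 1 - η))
        rw [mul_assoc, rp_mul hx, neg_add_cancel, Real.rpow_zero] at h7
        linarith
      have h8 := mul_lt_mul_of_pos_right h6 (hpos (1 + η))
      have h9 : (r.factorial : ℝ) * ((κ + 1) * x ^ (1 + η)) * 2 ^ r =
          (r.factorial : ℝ) * (κ + 1) * 2 ^ r * x ^ (1 + η) := by ring
      rw [h9]
      exact h8
    exact_mod_cast h1
  · exact lt_min hεp (by positivity)
  · -- DecC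
    refine ⟨hpos _, ?_, hpos _, ?_, ?_, ?_, ?_, ?_⟩
    · -- le
      apply Real.rpow_le_rpow_of_exponent_le hx
      rw [neg_le_neg_iff]
      apply div_le_div_of_nonneg_right _ hp0.le
      linarith
    · -- sig
      have h1 : (κ + 2) * x ^ (p * η1) * τ ^ p ≤ (s0 : ℝ) * τ ^ p :=
        mul_le_mul_of_nonneg_right hs0ge (Real.rpow_nonneg (hpos _).le _)
      have h2 : (κ + 2) * x ^ (p * η1) * τ ^ p = κ + 2 := by
        rw [hτ, rp_pow hx, mul_assoc, rp_mul hx]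
        have : p * η1 + -η1 * p = 0 := by ring
        rw [this, Real.rpow_zero, mul_one]
      linarith
    · -- sig2
      have h1 : (s0 : ℝ) ^ 2 ≤ ((κ + 3) * x ^ (p * η1)) ^ 2 := by
        apply pow_le_pow_left₀ (Nat.cast_nonneg _) hs0le
      have h2 : (2 * ε) ^ p = 2 ^ p * x ^ (-(e0 * p)) := by
        rw [Real.mul_rpow (by norm_num) hεp.le, hε, rp_pow hx]
        congr 2
        ring
      rw [h2]
      have h3 : (s0 : ℝ) ^ 2 * (2 ^ p * x ^ (-(e0 * p))) ≤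
          ((κ + 3) * x ^ (p * η1)) ^ 2 * (2 ^ p * x ^ (-(e0 * p))) := by
        apply mul_le_mul_of_nonneg_right h1
        have := hpos (-(e0 * p))
        positivity
      refine le_trans h3 (le_trans (le_of_eq ?_) c3)
      have h4 : (x ^ (p * η1)) ^ 2 = x ^ (p * e0 / 2) := by
        rw [← Real.rpow_natCast, rp_pow hx]
        congr 1
        rw [hη1]
        push_cast
        ring
      rw [mul_pow, h4]
      have h5 : x ^ (-(p * e0 / 2)) = x ^ (p * e0 / 2) * x ^ (-(e0 * p)) := by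
        rw [rp_mul hx]
        congr 1
        ring
      rw [h5]
      ring
    · -- qq
      have h1 : hc' ^ (-p) = x ^ (1 + η) := by
        rw [hhc, rp_pow hx]
        congr 1
        field_simp
      rw [h1]
      exact hQge
    · -- ins
      have hT1 : (d : ℝ) ^ (2 / p - 2) * (m * κ * (2 * ε) ^ (2 - p)) =
          κ * 2 ^ (2 - p) * x ^ (-((p - 1) * (2 - p) / p - η0 + e0 * (2 - p))) := by
        rw [Real.mul_rpow (by norm_num) hεp.le, hd, hm, hε, rp_pow hx]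
        have : x ^ (-((p - 1) * (2 - p) / p - η0 + e0 * (2 - p))) =
            x ^ (2 / p - 2) * x ^ μ * x ^ (-e0 * (2 - p)) := by
          rw [rp_mul hx, rp_mul hx]
          congr 1
          rw [hμ]
          field_simp
          ring
        rw [this]
        ring
      have hT2 : (d : ℝ) ^ (2 / p - 2) * (κ ^ 2 * ha ^ (2 - 2 * p)) =
          κ ^ 2 * x ^ (-((2 - 2 / p) * η)) := by
        rw [hd, hha, rp_pow hx]
        have : x ^ (-((2 - 2 / p) * η)) = x ^ (2 / p - 2) * x ^ (-((1 - η) / p) * (2 - 2 * p)) := by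
          rw [rp_mul hx]
          congr 1
          field_simp
          ring
        rw [this]
        ring
      have hT3 : (d : ℝ) ^ (2 / p - 2) * (2 * (d : ℝ) * κ * hc' ^ (2 - p)) =
          2 * κ * x ^ (-(η * (2 - p) / p)) := by
        rw [hd, hhc, rp_pow hx]
        have : x ^ (-(η * (2 - p) / p)) =
            x ^ (2 / p - 2) * x ^ (1 : ℝ) * x ^ (-((1 + η) / p) * (2 - p)) := by
          rw [rp_mul hx, rp_mul hx]
          congr 1
          field_simp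
          ring
        rw [this, Real.rpow_one]
        ring
      have hT4 : (d : ℝ) ^ (2 / p - 2) * (2 * J * m * κ * ha ^ 2 * hc' ^ (-p)) ≤
          4 * κ * x ^ (-(1 - μ - est - η * (1 + 2 / p))) := by
        have h1 : (d : ℝ) ^ (2 / p - 2) * (2 * J * m * κ * ha ^ 2 * hc' ^ (-p)) =
            2 * κ * (J : ℝ) * (x ^ (2 / p - 2) * x ^ μ * x ^ (-(2 * (1 - η) / p)) * x ^ (1 + η)) := by
          have h2 : ha ^ 2 = x ^ (-(2 * (1 - η) / p)) := by
            rw [hha, ← Real.rpow_natCast, rp_pow hx]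
            congr 1
            push_cast
            ring
          have h3 : hc' ^ (-p) = x ^ (1 + η) := by
            rw [hhc, rp_pow hx]
            congr 1
            field_simp
          rw [h2, h3, hd, hm]
          ring
        rw [h1]
        have h4 : x ^ (-(1 - μ - est - η * (1 + 2 / p))) =
            x ^ est * (x ^ (2 / p - 2) * x ^ μ * x ^ (-(2 * (1 - η) / p)) * x ^ (1 + η)) := by
          rw [rp_mul hx, rp_mul hx, rp_mul hx, rp_mul hx]
          congr 1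
          field_simp
          ring
        rw [h4]
        have h5 : 0 < x ^ (2 / p - 2) * x ^ μ * x ^ (-(2 * (1 - η) / p)) * x ^ (1 + η) := by
          have a1 := hpos (2 / p - 2)
          have a2 := hpos μ
          have a3 := hpos (-(2 * (1 - η) / p))
          have a4 := hpos (1 + η)
          positivity
        have h6 : 2 * κ * (J : ℝ) ≤ 4 * κ * x ^ est := by nlinarith
        calc 2 * κ * (J : ℝ) * (x ^ (2 / p - 2) * x ^ μ * x ^ (-(2 * (1 - η) / p)) * x ^ (1 + η))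
            ≤ 4 * κ * x ^ est * (x ^ (2 / p - 2) * x ^ μ * x ^ (-(2 * (1 - η) / p)) * x ^ (1 + η)) :=
              mul_le_mul_of_nonneg_right h6 h5.le
          _ = _ := by ring
      have hT5 : 2 * κ * τ ^ (2 - p) * ha ^ p * hc' ^ (-p) = 2 * κ * x ^ (-(η1 * (2 - p) / 2)) := by
        rw [hτ, hha, hhc, rp_pow hx, rp_pow hx, rp_pow hx]
        have : x ^ (-(η1 * (2 - p) / 2)) =
            x ^ (-η1 * (2 - p)) * x ^ (-((1 - η) / p) * p) * x ^ (-((1 + η) / p) * -p) := by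
          rw [rp_mul hx, rp_mul hx]
          congr 1
          rw [hη]
          field_simp
          ring
        rw [this]
        ring
      have hsum : (d : ℝ) ^ (2 / p - 2) * (m * κ * (2 * ε) ^ (2 - p) + κ ^ 2 * ha ^ (2 - 2 * p) +
          2 * (d : ℝ) * κ * hc' ^ (2 - p) + 2 * J * m * κ * ha ^ 2 * hc' ^ (-p)) =
          (d : ℝ) ^ (2 / p - 2) * (m * κ * (2 * ε) ^ (2 - p)) +
          (d : ℝ) ^ (2 / p - 2) * (κ ^ 2 * ha ^ (2 - 2 * p)) +
          (d : ℝ) ^ (2 / p - 2) * (2 * (d : ℝ) * κ * hc' ^ (2 - p)) +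
          (d : ℝ) ^ (2 / p - 2) * (2 * J * m * κ * ha ^ 2 * hc' ^ (-p)) := by ring
      rw [hsum, hT5, hT1, hT2, hT3]
      have hz4 : (z / 2) ^ 2 = z ^ 2 / 4 := by ring
      rw [hz4]
      linarith
    · -- noi
      have h1 : (d : ℝ) ^ (2 / p - 2) ≤ 1 := by
        rw [hd]
        apply Real.rpow_le_one_of_one_le_of_nonpos hx
        rw [sub_nonpos, div_le_iff₀ hp0]
        linarith
      have h2 : ζ ^ 2 ≤ (z / (2 * sd)) ^ 2 := by
        apply pow_le_pow_left₀ (le_min hεp.le (by positivity)) (min_le_right _ _)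
      have h3 : (d : ℝ) * m * ζ ^ 2 ≤ (z / 2) ^ 2 := by
        calc (d : ℝ) * m * ζ ^ 2 ≤ (d : ℝ) * m * (z / (2 * sd)) ^ 2 :=
              mul_le_mul_of_nonneg_left h2 hdm0.le
          _ = (z / 2) ^ 2 := by
              have h4 : sd ^ 2 = (d : ℝ) * m := Real.sq_sqrt hdm0.le
              rw [div_pow, mul_pow, h4]
              field_simp
              exact div_self hdm0.ne'
      have h5 : 0 ≤ (d : ℝ) * m * ζ ^ 2 := by positivity
      calc (d : ℝ) ^ (2 / p - 2) * ((d : ℝ) * m * ζ ^ 2) ≤ 1 * ((d : ℝ) * m * ζ ^ 2) :=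
            mul_le_mul_of_nonneg_right h1 h5
        _ ≤ (z / 2) ^ 2 := by rw [one_mul]; exact h3
  · -- dm ≤ c ε
    rw [hdmv]
    have h1 : x ^ (-(2 - p - (1 - 1 / p) * η0)) =
        x ^ (-((2 - p) / 2 + (3 / 2 - (1 - 1 / p)) * η0)) * ε := by
      rw [hε, rp_mul hx]
      congr 1
      rw [he0]
      ring
    rw [h1]
    exact mul_le_mul_of_nonneg_right s1 hεp.le
  · rw [hdmv]; exact s2
  · rw [hdmv]
    have h1 : (d : ℝ) / (m : ℕ) * x ^ (-(2 - p - (1 - 1 / p) * η0)) = x ^ (-(η0 / p)) := by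
      rw [hd, hm, div_mul_eq_mul_div, div_eq_iff (hpos _).ne', rp_mul hx]
      nth_rw 1 [← Real.rpow_one x]
      rw [rp_mul hx]
      congr 1
      rw [hμ]
      field_simp
      ring
    rw [h1]
    exact s3
  · have h1 : ε ^ 2 * ((d : ℝ) / (m : ℕ)) = x ^ (2 * η0) := by
      rw [hd, hm, ← mul_div_assoc, div_eq_iff (hpos _).ne', rp_mul hx, hε, ← Real.rpow_natCast, rp_pow hx]
      nth_rw 2 [← Real.rpow_one x]
      rw [rp_mul hx]
      congr 1
      rw [hμ, he0]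
      push_cast
      ring
    rw [h1]
    have h2 := mul_le_mul_of_nonneg_right s4 (hpos (2 * η0)).le
    rw [rp_mul hx, neg_add_cancel, Real.rpow_zero] at h2
    exact h2

theorem hPA1 : StPa1 := by
  intro p hp1 hp2
  have hD : 0 < 2 - p := by linarith
  have hD1 : 2 - p < 1 := by linarith
  obtain ⟨ρ, hρ1, hρ2⟩ := exists_rat_btwn (show p - 1 < p - 1 + (2 - p) ^ 2 / 16 by
    have : 0 < (2 - p) ^ 2 / 16 := by positivity
    linarith)
  have hρ0 : 0 < (ρ : ℝ) := by linarith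
  have hρ0' : 0 < ρ := by exact_mod_cast hρ0
  have hρ1' : (ρ : ℝ) < 1 := by nlinarith
  have hnum : 0 < ρ.num := Rat.num_pos.2 hρ0'
  set e : ℕ := ρ.den with he
  set e' : ℕ := ρ.num.toNat with he'
  have hepos : 0 < e := ρ.den_pos
  have he'c : ((e' : ℕ) : ℝ) = (ρ.num : ℝ) := by
    have : ((e' : ℕ) : ℤ) = ρ.num := Int.toNat_of_nonneg hnum.le
    exact_mod_cast this
  have hρe : (ρ : ℝ) = (e' : ℝ) / (e : ℝ) := by
    rw [he'c]
    exact Rat.cast_def ρ
  have heR : (0 : ℝ) < e := by exact_mod_cast hepos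
  have he'1 : 1 ≤ e' := by
    have : 0 < e' := by
      have h : (0 : ℤ) < ((e' : ℕ) : ℤ) := by
        rw [he', Int.toNat_of_nonneg hnum.le]; exact hnum
      exact_mod_cast h
    exact this
  have he'e : e' < e := by
    have : (e' : ℝ) < e := by
      rw [hρe, div_lt_one heR] at hρ1'
      exact hρ1'
    exact_mod_cast this
  set η0 : ℝ := (ρ : ℝ) - (p - 1) with hη0
  have hη0p : 0 < η0 := by linarith
  have hη0l : η0 < (2 - p) ^ 2 / 16 := by linarith
  set e0 : ℝ := (2 - p - 3 * η0) / 2 with he0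
  have hsq : (2 - p) ^ 2 ≤ 2 - p := by nlinarith
  have he0p : 0 < e0 := by
    rw [he0]; linarith
  have he0l : e0 < (2 - p) / 2 := by rw [he0]; linarith
  have he0g : 13 / 32 * (2 - p) ≤ e0 := by rw [he0]; linarith
  set η1 : ℝ := e0 / 4 with hη1
  set η : ℝ := η1 * (2 - p) / 4 with hη
  set est : ℝ := 3 * (2 - p) / 4 with hest
  have hη1p : 0 < η1 := by rw [hη1]; linarith
  have hηp : 0 < η := by rw [hη]; positivity
  have hηl : η < (2 - p) ^ 2 / 32 := by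
    rw [hη, hη1]
    nlinarith
  set r : ℕ := ⌈2 / (2 - p)⌉₊ with hr
  have hrge : 2 / (2 - p) ≤ (r : ℝ) := Nat.le_ceil _
  have hr1 : 1 ≤ r := by
    have : 0 < r := Nat.ceil_pos.2 (by positivity)
    exact this
  have hp0 : 0 < p := by linarith
  refine ⟨r, e, e', hr1, he'1, he'e, ?_⟩
  intro κ z c hκ hz hc
  have hF : Tendsto (fun q : ℕ => ((q ^ e : ℕ) : ℝ)) atTop atTop :=
    tendsto_natCast_atTop_atTop.comp (tendsto_pow_atTop hepos.ne')
  have hsm : ∀ a : ℝ, 0 < a → ∀ C δ : ℝ, 0 < δ →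
      ∀ᶠ q : ℕ in atTop, C * ((q ^ e : ℕ) : ℝ) ^ (-a) < δ := by
    intro a ha C δ hδ
    have h1 : Tendsto (fun q : ℕ => C * ((q ^ e : ℕ) : ℝ) ^ (-a)) atTop (nhds (C * 0)) :=
      ((tendsto_rpow_neg_atTop ha).comp hF).const_mul C
    rw [mul_zero] at h1
    exact h1.eventually_lt_const hδ
  have hz60 : 0 < z ^ 2 / 60 := by positivity
  have hre : 3 / 2 ≤ (r : ℝ) * est := by
    have h1 : 2 / (2 - p) * est = 3 / 2 := by
      rw [hest]
      field_simp
      ring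
    have h2 : 2 / (2 - p) * est ≤ (r : ℝ) * est :=
      mul_le_mul_of_nonneg_right hrge (by rw [hest]; positivity)
    linarith
  have e1 := hsm est (by rw [hest]; positivity) (2 * (r : ℝ)) 1 one_pos
  have e2 := hsm ((r : ℝ) * est - 1 - η) (by nlinarith) ((r.factorial : ℝ) * (κ + 1) * 2 ^ r) 1 one_pos
  have e3 := hsm (p * e0 / 2) (by positivity) ((κ + 3) ^ 2 * 2 ^ p) 1 one_pos
  have a1 : 0 < (p - 1) * (2 - p) / p - η0 + e0 * (2 - p) := by
    have h1 : 0 < (p - 1) * (2 - p) / p := by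
      have : 0 < p - 1 := by linarith
      positivity
    nlinarith
  have f1 := hsm _ a1 (κ * 2 ^ (2 - p)) (z ^ 2 / 60) hz60
  have a2 : 0 < (2 - 2 / p) * η := by
    have : 2 / p < 2 := by rw [div_lt_iff₀ hp0]; linarith
    have : 0 < 2 - 2 / p := by linarith
    positivity
  have f2 := hsm _ a2 (κ ^ 2) (z ^ 2 / 60) hz60
  have a3 : 0 < η * (2 - p) / p := by positivity
  have f3 := hsm _ a3 (2 * κ) (z ^ 2 / 60) hz60
  have a4 : 0 < 1 - (ρ : ℝ) - est - η * (1 + 2 / p) := by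
    have h1 : 2 / p < 2 := by rw [div_lt_iff₀ hp0]; linarith
    have h2 : η * (1 + 2 / p) < 3 * η := by nlinarith
    have h3 : (ρ : ℝ) = p - 1 + η0 := by rw [hη0]; ring
    rw [h3, hest]
    nlinarith
  have f4 := hsm _ a4 (4 * κ) (z ^ 2 / 60) hz60
  have a5 : 0 < η1 * (2 - p) / 2 := by positivity
  have f5 := hsm _ a5 (2 * κ) (z ^ 2 / 60) hz60
  have hip : 0 < 1 / p ∧ 1 / p < 1 := ⟨by positivity, by rw [div_lt_one hp0]; exact hp1⟩
  have b1 : 0 < (2 - p) / 2 + (3 / 2 - (1 - 1 / p)) * η0 := by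
    have := mul_pos (show 0 < 3 / 2 - (1 - 1 / p) by linarith [hip.1]) hη0p
    linarith
  have g1 := hsm _ b1 1 c hc
  have b2 : 0 < 2 - p - (1 - 1 / p) * η0 := by
    have : (1 - 1 / p) * η0 ≤ 1 * η0 := mul_le_mul_of_nonneg_right (by linarith [hip.1]) hη0p.le
    nlinarith
  have g2 := hsm _ b2 1 c hc
  have g3 := hsm (η0 / p) (by positivity) 1 c hc
  have g4 := hsm (2 * η0) (by positivity) 1 c hc
  have hall := e1.and (e2.and (e3.and (f1.and (f2.and (f3.and (f4.and (f5.and (g1.and (g2.and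
    (g3.and g4))))))))))
  obtain ⟨N, hN⟩ := eventually_atTop.1 hall
  refine ⟨max N 1, fun q hq => ?_⟩
  have hqN : N ≤ q := le_trans (le_max_left _ _) hq
  have hq1 : 1 ≤ q := le_trans (le_max_right _ _) hq
  obtain ⟨k1, k2, k3, k4, k5, k6, k7, k8, k9, k10, k11, k12⟩ := hN q hqN
  simp only [one_mul] at k9 k10 k11 k12
  have hx1 : (1 : ℝ) ≤ ((q ^ e : ℕ) : ℝ) := by
    exact_mod_cast Nat.one_le_pow e q hq1
  have hmx : ((q ^ e' : ℕ) : ℝ) = ((q ^ e : ℕ) : ℝ) ^ (ρ : ℝ) := by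
    push_cast
    rw [← Real.rpow_natCast (q : ℝ) e, ← Real.rpow_mul (Nat.cast_nonneg q), hρe,
      mul_div_cancel₀ _ heR.ne', Real.rpow_natCast]
  exact core p κ z c ((q ^ e : ℕ) : ℝ) (ρ : ℝ) η0 e0 η1 η est (q ^ e) (q ^ e') r hp1 hp2 hκ hz hc hx1 rfl hmx
    (by rw [hη0]; ring) he0 hη1 hη hest he0p hr1 k1.le k2 k3.le k4.le k5.le k6.le k7.le k8.le k9.le k10.le
    k11.le k12.le

end Pool.Agent.Helper89.XP
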